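import Pool.Agent.Lib.MP_820b44_gt.CoreSF

/-!
# Products of small spaces with gamma-sets: the range below `max (cov(M)) 𝔤`
-/

set_option autoImplicit false

namespace Pool.Agent.Results.MP_820b44_gt.SmallFactor

open Set MP820b44
open scoped Cardinal

/-- The sets of reals of the problem are subspaces of the Cantor space `ℕ → Bool`; the infinite
subsets of `ℕ` form the following subset. -/
def infiniteSets : Set (ℕ → Bool) := {x | {n | x n = true}.Infinite}

theorem result :
    -- products: the `γ`-property or `S₁(Γ, Γ)` of `Y` is enough if `|A| < max (cov(M)) 𝔤`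
    (∀ (A Y : Type) [TopologicalSpace A] [TopologicalSpace Y],
      ((T1Space Y ∧ GammaProperty Y) ∨ S1GammaGamma Y) → #A < max covM gNum →
        S1GammaO (A × Y)) ∧
    -- unions: fewer than `max (cov(M)) 𝔤` pieces
    (∀ (X I : Type) [TopologicalSpace X] (P : I → Set X), ⋃ i, P i = univ →
      (∀ i, (T1Space (P i) ∧ GammaProperty (P i)) ∨ S1GammaGamma (P i)) →
        #I < max covM gNum → S1GammaO X) ∧
    -- Q1 holds if `𝔟 ≤ max (cov(M)) 𝔤`
    (bNum ≤ max covM gNum → ∀ A Y : Set (ℕ → Bool), A ⊆ infiniteSets → #A < bNum →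
      GammaProperty Y → S1GammaO (A × Y)) ∧
    -- Q2 holds if `𝔡 ≤ max (cov(M)) 𝔤`
    (dNum ≤ max covM gNum → ∀ A Y : Set (ℕ → Bool), A ⊆ infiniteSets → #A < dNum →
      GammaProperty Y → S1GammaO (A × Y)) := by
  refine ⟨?_, ?_, ?_, ?_⟩
  · intro A Y _ _ hY hA
    apply s1GammaO_prod _ hA
    rcases hY with ⟨h1, h2⟩ | h
    · exact h2.hasSelectors
    · exact h.hasSelectors
  · intro X I _ P hP hY hI
    apply s1GammaO_iUnion P hP _ hI
    intro i
    rcases hY i with ⟨h1, h2⟩ | h
    · exact h2.hasSelectors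
    · exact h.hasSelectors
  · intro hb A Y _ hA hY
    exact s1GammaO_prod hY.hasSelectors (hA.trans_le hb)
  · intro hd A Y _ hA hY
    exact s1GammaO_prod hY.hasSelectors (hA.trans_le hd)

end Pool.Agent.Results.MP_820b44_gt.SmallFactor
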