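import Pool.Agent.Lib.MP_820b44_gt.Fin

/-!
# A model of `ZFC` with a set `A` of fewer than `𝔡` infinite sets and a `γ`-set `Y` such that
`A × Y` does not satisfy `S₁(Γ, O)`
-/

namespace Pool.Agent.Results.MP_820b44_gt.ZFCModel

open Pool.Agent.Lib.MP_820b44_gt Pool.Agent.Lib.MP_1ab623_gt

/-- There is a model `(M, E)` of `ZFC` in which there are a set `A` of infinite subsets of the set
`w` of natural numbers, of cardinality smaller than `𝔡`, and a set of reals `Y` with the
`γ`-property, such that the product space `D = A × Y` does not satisfy `S₁(Γ, O)`. -/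
theorem result : ∃ (M : Type) (E : M → M → Prop), IsZFC E ∧
    ∃ w A Y D : M, IsOmega E w ∧
      (∀ a, E a A → Sub E a w ∧ ¬ FiniteSet E w a) ∧ LessThanD E w A ∧
      (∀ y, E y Y → Sub E y w) ∧ GammaProperty E w (IsOpenSubset E w Y) Y ∧
      IsProd E D A Y ∧ ¬ SelectionGammaO E w (IsOpenSubsetOfProduct E w A Y D) D := by
  obtain ⟨M, E, hE, w, A, Y, D, hw, h⟩ := Pool.Agent.B820.goal
  exact ⟨M, E, hE, w, A, Y, D, hw, h.infinite, h.small, h.reals, h.gammaProperty, h.product,
    h.fails⟩

end Pool.Agent.Results.MP_820b44_gt.ZFCModel
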